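import Mathlib
import Pool.Agent.Y126.Notions
import Pool.Agent.Y126.Toric.Final
import Pool.Agent.Y126.Toric.Alt
import Pool.Agent.TH118.CR.Torus

/-!
# From square-zero elements of rank one to Tate classes on all powers
-/

namespace Pool.Agent.Y126.Glue

open Module TensorProduct Pool.Agent.Y126.Notions
open Pool.Agent.H204R3.SP Pool.Agent.H204R3.GP Pool.Agent.W522.U Pool.Agent.TH118.WC
open Pool.Agent.TH118.CR

noncomputable section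

theorem conclusion (ℓ : ℕ) [Fact ℓ.Prime] {V Γ : Type} [AddCommGroup V] [Module ℚ_[ℓ] V]
    [FiniteDimensional ℚ_[ℓ] V] [Group Γ] (ρ : Representation ℚ_[ℓ] Γ V) (χ : Γ →* ℚ_[ℓ])
    (ω : V →ₗ[ℚ_[ℓ]] V →ₗ[ℚ_[ℓ]] ℚ_[ℓ]) (halt : ∀ v, ω v v = 0)
    (hnondeg : ∀ u, (∀ v, ω v u = 0) → u = 0)
    (hω : ∀ s u v, ω (ρ s u) (ρ s v) = χ s * ω u v)
    (hsemisimple : PotentiallySemisimple ρ)
    (h1 : ∀ U, StronglyIrreducible (extend (AlgebraicClosure ℚ_[ℓ]) ρ) U →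
      2 ≤ finrank (AlgebraicClosure ℚ_[ℓ]) U →
      ∃ e ∈ lieT (bcr ρ (AlgebraicClosure ℚ_[ℓ])) (bcc χ (AlgebraicClosure ℚ_[ℓ])), e * e = 0 ∧
        finrank (AlgebraicClosure ℚ_[ℓ]) (U.map e) = 1)
    (hlines : NoSelfDualLines (extend (AlgebraicClosure ℚ_[ℓ]) ρ)
      ((algebraMap ℚ_[ℓ] (AlgebraicClosure ℚ_[ℓ]) : ℚ_[ℓ] →* _).comp χ))
    (htwists : NoProperTwists (extend (AlgebraicClosure ℚ_[ℓ]) ρ)
      ((algebraMap ℚ_[ℓ] (AlgebraicClosure ℚ_[ℓ]) : ℚ_[ℓ] →* _).comp χ)) :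
    GeneratedByWeilClasses (AlgebraicClosure ℚ_[ℓ]) ρ χ ω ∧
    ((∀ (Q : Type) [Fintype Q] [Nonempty Q]
      (L : Q → Submodule (AlgebraicClosure ℚ_[ℓ]) (AlgebraicClosure ℚ_[ℓ] ⊗[ℚ_[ℓ]] V)),
      ¬Notions.IsWeilFamily (extend (AlgebraicClosure ℚ_[ℓ]) ρ)
        ((algebraMap ℚ_[ℓ] (AlgebraicClosure ℚ_[ℓ]) : ℚ_[ℓ] →* _).comp χ) L) →
      GeneratedInDegreeTwo ρ χ) := by
  have hl1 : ∀ u, (∀ v, bcb (AlgebraicClosure ℚ_[ℓ]) ω u v = 0) → u = 0 := fun u hu =>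
    bcb_nondeg_left ω hnondeg (left_nondeg ω halt hnondeg) u hu
  have hinv := bcb_inv (Ω := AlgebraicClosure ℚ_[ℓ]) ρ χ ω hω
  have hpr : HasProj (bcr ρ (AlgebraicClosure ℚ_[ℓ])) := hasProj_bcr ρ _ hsemisimple
  have core : ∀ (m : ℕ) (φ : MultilinearMap (AlgebraicClosure ℚ_[ℓ])
      (fun _ : Fin m × Fin 2 => AlgebraicClosure ℚ_[ℓ] ⊗[ℚ_[ℓ]] V) (AlgebraicClosure ℚ_[ℓ])),
      IsTate (bcr ρ (AlgebraicClosure ℚ_[ℓ])) (bcc χ (AlgebraicClosure ℚ_[ℓ])) m φ →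
      φ ∈ Submodule.span _ (DetProd (bcr ρ (AlgebraicClosure ℚ_[ℓ]))
        (bcc χ (AlgebraicClosure ℚ_[ℓ])) m) := fun m φ hφ =>
    nil_det (bcb _ ω) hl1 hinv h1 hpr hlines htwists φ hφ
  refine ⟨fun n m f hf => ?_, fun hno => ?_⟩
  · refine Submodule.span_mono (Set.image_mono ?_)
      (classes_of_tensors (AlgebraicClosure ℚ_[ℓ]) ρ χ (bcb _ ω) hl1 hinv (core m) f hf)
    rintro g ⟨P, Q, hP, hQ, d, L, b, e, B, hB, hB0, ⟨hL1, hL2, hL3⟩, rfl⟩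
    exact ⟨P, Q, hP, hQ, d, L, b, e, B, fun p => ⟨hB p, hB0 p⟩, ⟨hL1, hL2, hL3⟩, rfl⟩
  · have h := generated_of_ext ρ χ (AlgebraicClosure ℚ_[ℓ]) fun m φ hφ => ?_
    · intro n m f hf
      refine Submodule.span_mono ?_ (h n m f hf)
      rintro g ⟨B, hB, hg⟩
      refine ⟨B, fun l => ?_, hg⟩
      obtain ⟨Δ, hΔ, h1⟩ := hB l
      refine ⟨Δ, hΔ, fun s hs v => ?_⟩
      have h2 := h1 s hs v
      rwa [pow_one] at h2
    · exact Pool.Agent.Y126.Toric.pt_of_noWeil hno (core m φ hφ)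

variable {K : Type} [Field K] [CharZero K] {X : Type} [AddCommGroup X] [Module K X]
  [FiniteDimensional K X] {Γ : Type} [Group Γ] {R : Representation K Γ X} {χ : Γ →* K}

/-- The slope operator of a diagonalizable element is in the Lie algebra. -/
theorem slope_mem {n : ℕ} (F : Γ) (b : Basis (Fin n) K X) (a : Fin n → Kˣ) (c : Kˣ)
    (w : Additive Kˣ →+ ℚ) (hF : ∀ i, R F (b i) = (a i : K) • b i) (hc : (c : K) = χ F)
    {x : Module.End K X} (hw : w (Additive.ofMul c) = 1)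
    (hx : ∀ i, x (b i) = (((w (Additive.ofMul (a i)) - 1 / 2 : ℚ)) : K) • b i) :
    x ∈ lieT R χ := by
  classical
  let f : ℚ →+ K := (Rat.castHom K).toAddMonoidHom
  have h1 := dg_mem R χ F b a hF c hc (f.comp w)
  have h2 : x = dg b (fun k => (f.comp w) (Additive.ofMul (a k)) -
      (f.comp w) (Additive.ofMul c) / 2) := by
    refine b.ext fun i => ?_
    rw [dg_basis, hx]
    congr 1
    change _ = ((w (Additive.ofMul (a i)) : ℚ) : K) - ((w (Additive.ofMul c) : ℚ) : K) / 2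
    rw [hw]
    push_cast
    ring
  rw [h2]
  exact h1

end

end Pool.Agent.Y126.Glue
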